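import Pool.Agent.W99.TI.Spec

/-!
# MP_ebd556_mp: the multivariate trace inequality, with the conjectured constant `c = 1`

For positive `A_1, …, A_n` on `ℂ^d`, with `A_j = ∑_i a_{ji} |v_{ji}⟩⟨v_{ji}|`, `p = (j, i)`:

* `-L ≤ ∑_{p < q} (3 a - a² / b) / 2 |⟨v_p, v_q⟩|²`, `a = min(a_p, a_q)`, `b = max(a_p, a_q)`.
  This follows by integrating along the path `X_t = ∑_p min(a_p, t)² |v_p⟩⟨v_p|` the tangent bound
  `X_t^(-1/2) ≥ 3/(2t) - X_t/(2t³)`, all capped weights being equal to `t`.
* `Tr (A + B) - ‖A - B‖₁ ≥ ∑ 2 a_i b_l / (a_i + b_l) |⟨v_i, u_l⟩|²` (a Nussbaum-Szkola type bound).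
* `(3 a - a² / b) / 2 ≤ 2 a b / (a + b)`.
-/

set_option autoImplicit false

namespace Pool.Agent.Results.MP_ebd556_mp.TraceInequality

open Matrix Finset
open scoped MatrixOrder ComplexOrder

/-- The trace norm `‖X‖₁ = Tr √(X* X)`. -/
noncomputable def traceNorm {d : ℕ} (X : Matrix (Fin d) (Fin d) ℂ) : ℝ :=
  (CFC.sqrt (Xᴴ * X)).trace.re

/-- `L(A_1, …, A_n) = Tr √(∑ A_j²) - ∑ Tr A_j`. -/
noncomputable def L {n d : ℕ} (A : Fin n → Matrix (Fin d) (Fin d) ℂ) : ℝ :=
  (CFC.sqrt (∑ j, A j ^ 2)).trace.re - ∑ j, (A j).trace.re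

/-- `R(A_1, …, A_n) = ∑_{j < k} (‖A_j - A_k‖₁ - Tr (A_j + A_k))`. -/
noncomputable def R {n d : ℕ} (A : Fin n → Matrix (Fin d) (Fin d) ℂ) : ℝ :=
  ∑ j, ∑ k ∈ Finset.Ioi j, (traceNorm (A j - A k) - (A j + A k).trace.re)

open Pool.Agent.W99.TI in
/-- **The multivariate trace inequality holds with `c = 1`** for every number `n` of positive
operators and in every dimension `d`: `L(A_1, …, A_n) ≥ R(A_1, …, A_n)`. -/
theorem result (n d : ℕ) (A : Fin n → Matrix (Fin d) (Fin d) ℂ) (hA : ∀ j, (A j).PosSemidef) :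
    R A ≤ L A := by
  classical
  choose U l hU hU' hAl hl using fun j => exists_spec (hA j).isHermitian
  have hl0 : ∀ j i, 0 ≤ l j i := fun j i => hl j (hA j) i
  set a : Fin n × Fin d → ℝ := fun p => l p.1 p.2 with ha
  set v : Fin n × Fin d → (Fin d → ℂ) := fun p => cl (U p.1) p.2 with hv
  have hv1 : ∀ p, star (v p) ⬝ᵥ v p = 1 := by
    intro p
    rw [hv]
    dsimp only
    rw [cl_dot, hU, Matrix.one_apply_eq]
  -- the sum of squares
  have hsq : ∀ j, A j ^ 2 = ∑ i, (((l j i) ^ 2 : ℝ) : ℂ) • pr (cl (U j) i) := by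
    intro j
    rw [← diag_eq_sum, pow_two]
    conv_lhs => rw [hAl j]
    rw [diag_mul_self (hU j)]
    congr 3
    ext i
    push_cast; ring
  have hsum : ∑ j, A j ^ 2 = ∑ p, (((a p) ^ 2 : ℝ) : ℂ) • pr (v p) := by
    rw [Fintype.sum_prod_type]
    exact Finset.sum_congr rfl fun j _ => hsq j
  have hpsd : (∑ j, A j ^ 2).PosSemidef := posSemidef_sum _ fun j _ => (hA j).pow 2
  have hmain := path_bound a (fun p => hl0 p.1 p.2) v hv1
    (CFC.sqrt_nonneg (∑ j, A j ^ 2)).posSemidef
    ((CFC.sqrt_mul_sqrt_self _ hpsd.nonneg).trans hsum)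
  have htr : ∑ p, a p = ∑ j, (A j).trace.re := by
    rw [Fintype.sum_prod_type]
    refine Finset.sum_congr rfl fun j _ => ?_
    conv_rhs => rw [hAl j]
    rw [diag_trace (hU j), Complex.re_sum]
    rfl
  -- the double sum
  set M : Fin n → Fin n → ℝ := fun j k =>
    ∑ i, ∑ i', kap (l j i) (l k i') * ov v (j, i) (k, i') with hM
  have hMsum : ∑ p, ∑ q, kap (a p) (a q) * ov v p q = ∑ j, ∑ k, M j k := by
    rw [Fintype.sum_prod_type]
    refine Finset.sum_congr rfl fun j _ => ?_
    have e : ∀ i, ∑ q, kap (a (j, i)) (a q) * ov v (j, i) q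
        = ∑ k, ∑ i', kap (l j i) (l k i') * ov v (j, i) (k, i') := fun i =>
      Fintype.sum_prod_type _
    rw [Finset.sum_congr rfl fun i _ => e i, Finset.sum_comm]
  have hMdiag : ∀ j, M j j = 0 := by
    intro j
    rw [hM]
    dsimp only
    refine Finset.sum_eq_zero fun i _ => Finset.sum_eq_zero fun i' _ => ?_
    have : ov v (j, i) (j, i') = 0 := by
      unfold ov
      split_ifs with h
      · rfl
      · have h2 : i ≠ i' := fun h' => h (by rw [h'])
        rw [hv]
        dsimp only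
        rw [cl_dot, hU, Matrix.one_apply_ne h2, map_zero]
    rw [this, mul_zero]
  have hMsymm : ∀ j k, M j k = M k j := by
    intro j k
    rw [hM]
    dsimp only
    rw [Finset.sum_comm]
    refine Finset.sum_congr rfl fun i _ => Finset.sum_congr rfl fun i' _ => ?_
    rw [kap_comm, ov_symm]
  have hMle : ∀ j k, j ≠ k → M j k ≤ (A j + A k).trace.re - traceNorm (A j - A k) := by
    intro j k hjk
    have hN : traceNorm (A j - A k) = trN (A j - A k) := rfl
    rw [hN]
    refine le_trans ?_ (pair_bound (hU' j) (hU' k) (hl0 j) (hl0 k) (hAl j) (hAl k))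
    rw [hM]
    dsimp only
    refine Finset.sum_le_sum fun i _ => Finset.sum_le_sum fun i' _ => ?_
    have h1 : ov v (j, i) (k, i') = Complex.normSq (((U j)ᴴ * U k) i i') := by
      unfold ov
      rw [if_neg (by intro h; exact hjk (Prod.ext_iff.mp h).1)]
      rw [← cl_dot]
    rw [h1]
    exact mul_le_mul_of_nonneg_right (kap_le (hl0 j i) (hl0 k i')) (Complex.normSq_nonneg _)
  -- reorganise the sum over pairs
  have hhalf : ∑ j, ∑ k, M j k = 2 * ∑ j, ∑ k ∈ Finset.Ioi j, M j k := by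
    have h1 : ∀ j, ∑ k, M j k = ∑ k ∈ Finset.Ioi j, M j k + ∑ k ∈ Finset.Iio j, M j k := by
      intro j
      have hu : (Finset.univ : Finset (Fin n)) = insert j (Finset.Ioi j ∪ Finset.Iio j) := by
        ext k
        simp only [Finset.mem_univ, Finset.mem_insert, Finset.mem_union, Finset.mem_Ioi,
          Finset.mem_Iio, true_iff]
        rcases lt_trichotomy k j with h | h | h <;> simp [h]
      rw [hu, Finset.sum_insert (by simp), hMdiag j, zero_add, Finset.sum_union]
      rw [Finset.disjoint_left]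
      intro k hk hk'
      rw [Finset.mem_Ioi] at hk
      rw [Finset.mem_Iio] at hk'
      exact absurd hk (not_lt.mpr hk'.le)
    have h2 : ∑ j, ∑ k ∈ Finset.Iio j, M j k = ∑ j, ∑ k ∈ Finset.Ioi j, M j k := by
      have e1 : ∑ j, ∑ k ∈ Finset.Iio j, M j k = ∑ j, ∑ k, if k < j then M j k else 0 := by
        refine Finset.sum_congr rfl fun j _ => ?_
        rw [← Finset.sum_filter]
        refine Finset.sum_congr ?_ fun _ _ => rfl
        ext k; simp
      have e2 : ∑ j, ∑ k ∈ Finset.Ioi j, M j k = ∑ j, ∑ k, if j < k then M j k else 0 := by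
        refine Finset.sum_congr rfl fun j _ => ?_
        rw [← Finset.sum_filter]
        refine Finset.sum_congr ?_ fun _ _ => rfl
        ext k; simp
      rw [e1, e2, Finset.sum_comm]
      refine Finset.sum_congr rfl fun j _ => Finset.sum_congr rfl fun k _ => ?_
      rw [hMsymm]
    rw [Finset.sum_congr rfl fun j _ => h1 j, Finset.sum_add_distrib, h2]
    ring
  have hR : ∑ j, ∑ k ∈ Finset.Ioi j, M j k ≤ - R A := by
    unfold R
    rw [← Finset.sum_neg_distrib]
    refine Finset.sum_le_sum fun j _ => ?_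
    rw [← Finset.sum_neg_distrib]
    refine Finset.sum_le_sum fun k hk => ?_
    have := hMle j k (ne_of_lt (Finset.mem_Ioi.mp hk))
    linarith
  unfold L
  rw [← htr]
  rw [hMsum, hhalf] at hmain
  linarith

end Pool.Agent.Results.MP_ebd556_mp.TraceInequality
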